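import Pool.Agent.Helper43.GD.St

/-! Project GD (MP_b3ce06_al), module B3. -/

set_option autoImplicit false

namespace Pool.Agent.Helper76.GD

open Pool.Agent.Helper43.GD

theorem one_ne_neg_one {L : Type} [CommRing L] [Nontrivial L] (h2 : IsUnit (2 : L)) :
    (1 : L) ≠ -1 := by
  intro h
  have e : (2 : L) = 0 := by linear_combination h
  rw [e] at h2
  exact not_isUnit_zero h2

/-- an element of odd order has no power equal to `-1` -/
theorem odd_even {L : Type} [CommRing L] [Nontrivial L] (h2 : IsUnit (2 : L)) {y : Lˣ} {n m : ℕ}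
    (hn : Odd n) (h1 : y ^ n = 1) (hm : (y : L) ^ m = -1) : False := by
  have e0 : (y : L) ^ n = 1 := by rw [← Units.val_pow_eq_pow_val, h1, Units.val_one]
  have e : ((y : L) ^ m) ^ n = 1 := by
    rw [← pow_mul, mul_comm, pow_mul, e0, one_pow]
  rw [hm, hn.neg_one_pow] at e
  exact one_ne_neg_one h2 e.symm

theorem even_of {L A : Type} [CommRing L] [Group A] {Q : Fr L A} {M : ℕ} {x : Lˣ} (h : CB Q M x)
    {y : Lˣ} (hy : y ∈ Q.U) (ho : ¬ Odd (orderOf y)) : ∃ m : ℕ, (y : L) ^ m = -1 := by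
  have := h.1.fin
  have hpos : 0 < orderOf y := orderOf_pos y
  rw [Nat.not_odd_iff_even] at ho
  obtain ⟨k, hk⟩ := ho
  have hk0 : 0 < k := by omega
  have e1 : (y ^ k) ^ 2 = 1 := by
    rw [← pow_mul, show k * 2 = orderOf y by omega, pow_orderOf_eq_one]
  rcases h.2.2.2 (y ^ k) (Q.U.pow_mem hy k)
    (by rw [← Units.val_pow_eq_pow_val, e1, Units.val_one]) with h1 | h1
  · exact absurd (orderOf_dvd_of_pow_eq_one h1) (Nat.not_dvd_of_pos_of_lt hk0 (by omega))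
  · refine ⟨k, ?_⟩
    rw [← Units.val_pow_eq_pow_val, h1]
    simp

theorem hB3 (hB2 : StB2) (hGNS : StGNS) : StB3 := by
  classical
  intro L A _ _ Q M x h y hy hu
  have := h.1.fin
  have := h.2.2.1
  have h2 := h.1.two
  by_contra hno
  have hyodd : Odd (orderOf y) := by
    by_contra ho
    obtain ⟨m, hm⟩ := even_of h hy ho
    exact hno (hB2 L A Q M x h y hy m hm)
  have hpos : ∀ z : Lˣ, 0 < orderOf z := fun z => orderOf_pos z
  -- `y τ` is even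
  have hyt : ∀ τ : Lˣ, τ ∈ Q.U → (∃ m : ℕ, (τ : L) ^ m = -1) → ∃ m : ℕ, ((y * τ : Lˣ) : L) ^ m = -1 := by
    intro τ hτ hm
    obtain ⟨m, hm⟩ := hm
    by_contra hn
    have ho : Odd (orderOf (y * τ)) := by
      by_contra ho
      exact hn (even_of h (Q.U.mul_mem hy hτ) ho)
    refine odd_even h2 (n := orderOf y * orderOf (y * τ)) (m := m) (y := τ) (hyodd.mul ho) ?_ hm
    have e1 : (y * τ) ^ (orderOf y * orderOf (y * τ)) = 1 := by
      rw [mul_comm (orderOf y), pow_mul, pow_orderOf_eq_one, one_pow]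
    rw [mul_pow, pow_mul, pow_orderOf_eq_one, one_pow, one_mul] at e1
    exact e1
  -- the map `τ ↦ (1 - τ)/(1 - y τ)`
  have hρ : ∀ τ : Lˣ, τ ∈ Q.U → (∃ m : ℕ, (τ : L) ^ m = -1) →
      ∃ ρ : Lˣ, ρ ∈ Q.U ∧ Odd (orderOf ρ) ∧ (ρ : L) * (1 - (y : L) * (τ : L)) = 1 - (τ : L) := by
    intro τ hτ hm
    obtain ⟨m, hm'⟩ := hm
    obtain ⟨a, ha, ha'⟩ := hB2 L A Q M x h τ hτ m hm'
    obtain ⟨m2, hm2⟩ := hyt τ hτ ⟨m, hm'⟩
    obtain ⟨b, hb, hb'⟩ := hB2 L A Q M x h (y * τ) (Q.U.mul_mem hy hτ) m2 hm2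
    rw [Units.val_mul] at hb'
    have hρU : a * b⁻¹ ∈ Q.U := Q.U.mul_mem ha (Q.U.inv_mem hb)
    have hbi : ((b⁻¹ : Lˣ) : L) * (b : L) = 1 := b.inv_mul
    have hρe : ((a * b⁻¹ : Lˣ) : L) * (1 - (y : L) * (τ : L)) = 1 - (τ : L) := by
      rw [← hb', Units.val_mul, mul_assoc, hbi, mul_one, ha']
    refine ⟨a * b⁻¹, hρU, ?_, hρe⟩
    by_contra ho
    obtain ⟨m3, hm3⟩ := even_of h hρU ho
    obtain ⟨c, hc, hc'⟩ := hB2 L A Q M x h _ hρU m3 hm3
    apply hno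
    refine ⟨τ⁻¹ * c * b, Q.U.mul_mem (Q.U.mul_mem (Q.U.inv_mem hτ) hc) hb, ?_⟩
    have hti : ((τ⁻¹ : Lˣ) : L) * (τ : L) = 1 := τ.inv_mul
    rw [Units.val_mul, Units.val_mul, hc', hb']
    linear_combination (-((τ⁻¹ : Lˣ) : L)) * hρe + (1 - (y : L)) * hti
  choose f hf1 hf2 hf3 using hρ
  -- injective
  have hinj : ∀ (τ τ' : Lˣ) (h1 : τ ∈ Q.U) (h1' : ∃ m : ℕ, (τ : L) ^ m = -1) (h3 : τ' ∈ Q.U)
      (h3' : ∃ m : ℕ, (τ' : L) ^ m = -1), f τ h1 h1' = f τ' h3 h3' → τ = τ' := by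
    intro τ τ' h1 h1' h3 h3' he
    have e1 := hf3 τ h1 h1'
    have e2 := hf3 τ' h3 h3'
    rw [← he] at e2
    obtain ⟨r, hr⟩ := hu
    obtain ⟨m2, hm2⟩ := hyt τ h1 h1'
    obtain ⟨b, -, hb⟩ := hB2 L A Q M x h (y * τ) (Q.U.mul_mem hy h1) m2 hm2
    rw [Units.val_mul] at hb
    have hri : ((r⁻¹ : Lˣ) : L) * (r : L) = 1 := r.inv_mul
    have hbi : ((b⁻¹ : Lˣ) : L) * (b : L) = 1 := b.inv_mul
    have e3 : (1 - (τ : L)) * (1 - (y : L) * (τ' : L)) = (1 - (τ' : L)) * (1 - (y : L) * (τ : L)) := by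
      rw [← e1, ← e2]
      ring
    have e4 : ((τ' : L) - (τ : L)) * (r : L) = 0 := by
      rw [hr]
      linear_combination e3
    apply Units.ext
    have e5 : ((τ' : L) - (τ : L)) = 0 := by
      have : ((τ' : L) - (τ : L)) = (((τ' : L) - (τ : L)) * (r : L)) * ((r⁻¹ : Lˣ) : L) := by
        linear_combination (-((τ' : L) - (τ : L))) * hri
      rw [this, e4, zero_mul]
    exact (sub_eq_zero.1 e5).symm
  -- odd elements
  have hneg : ∀ z : Lˣ, z ∈ Q.U → Odd (orderOf z) →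
      (-z) ∈ Q.U ∧ ∃ m : ℕ, ((-z : Lˣ) : L) ^ m = -1 := by
    intro z hz ho
    refine ⟨?_, orderOf z, ?_⟩
    · have := Q.U.mul_mem Q.neg hz
      rwa [neg_one_mul] at this
    · rw [Units.val_neg, ho.neg_pow, ← Units.val_pow_eq_pow_val, pow_orderOf_eq_one, Units.val_one]
  let O := {z : Lˣ // z ∈ Q.U ∧ Odd (orderOf z)}
  have : Finite O := inferInstance
  let g : O → O := fun z => ⟨f (-z.1) (hneg z.1 z.2.1 z.2.2).1 (hneg z.1 z.2.1 z.2.2).2, hf1 _ _ _, hf2 _ _ _⟩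
  have hg : Function.Injective g := by
    intro z z' hzz
    have e1 := congrArg Subtype.val hzz
    have e2 := hinj _ _ _ _ _ _ e1
    exact Subtype.ext (neg_injective e2)
  have hgs : Function.Surjective g := Finite.surjective_of_injective hg
  -- the element `i`
  have hi2 : ((x ^ (M / 2) : Lˣ) : L) ^ 2 = -1 := (hGNS L M x h.1).2.2.2.1
  have hiU : x ^ (M / 2) ∈ Q.U := Q.U.pow_mem h.2.1 _
  obtain ⟨z, hz⟩ := hgs ⟨f (x ^ (M / 2)) hiU ⟨2, hi2⟩, hf1 _ _ _, hf2 _ _ _⟩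
  have e1 : -z.1 = x ^ (M / 2) := hinj _ _ _ _ _ _ (congrArg Subtype.val hz)
  refine odd_even h2 (n := orderOf z.1) (m := 2) z.2.2 (pow_orderOf_eq_one _) ?_
  rw [← hi2, ← e1, Units.val_neg, neg_sq]

end Pool.Agent.Helper76.GD
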